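import Pool.Agent.H31.DPD.Targets
import Pool.Agent.H13.DP.M1

/-!
Major arcs for polynomials, a single scale.
-/

set_option autoImplicit false

open Finset

namespace Pool.Agent.H13.DPD

open Pool.Agent.H31.DP Pool.Agent.H31.DPD Pool.Agent.H13.DP

lemma abel_bound_sum (g w : ℕ → ℂ) (N : ℕ) (T D : ℝ)
    (hg : ∀ k ≤ N, ‖∑ n ∈ Icc 1 k, g n‖ ≤ T) (hw : ∀ n, ‖w n‖ ≤ 1)
    (hwd : ∑ n ∈ range N, ‖w (n + 1) - w n‖ ≤ D) :
    ‖∑ n ∈ Icc 1 N, g n * w n‖ ≤ (1 + D) * T := by
  have hT : 0 ≤ T := (norm_nonneg _).trans (hg N le_rfl)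
  rw [abel]
  have h1 : ‖(∑ n ∈ Icc 1 N, g n) * w N‖ ≤ T := by
    rw [norm_mul]
    calc _ ≤ T * 1 := mul_le_mul (hg N le_rfl) (hw N) (norm_nonneg _) hT
      _ = T := mul_one T
  have h2 : ‖∑ n ∈ range N, (∑ m ∈ Icc 1 n, g m) * (w (n + 1) - w n)‖ ≤ T * D := by
    refine (norm_sum_le _ _).trans ?_
    calc ∑ n ∈ range N, ‖(∑ m ∈ Icc 1 n, g m) * (w (n + 1) - w n)‖
        ≤ ∑ n ∈ range N, T * ‖w (n + 1) - w n‖ := by
          refine Finset.sum_le_sum fun n hn => ?_
          rw [norm_mul]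
          exact mul_le_mul_of_nonneg_right (hg n (Finset.mem_range.1 hn).le) (norm_nonneg _)
      _ = T * ∑ n ∈ range N, ‖w (n + 1) - w n‖ := (Finset.mul_sum _ _ _).symm
      _ ≤ T * D := mul_le_mul_of_nonneg_left hwd hT
  calc _ ≤ _ := norm_sub_le _ _
    _ ≤ T + T * D := add_le_add h1 h2
    _ = _ := by ring

/-- the partial sums of a function twisted by a periodic function -/
lemma part_bound (f : ℕ → ℂ) (hf : ∀ n, ‖f n‖ ≤ 1) (K J N : ℕ) (η : ℝ) (hK : 0 < K) (hJ : 0 < J)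
    (hN : 0 < N)
    (hsum : ∀ q : ℕ, 1 ≤ q → q ≤ K → ∀ n₀ : ℕ, n₀ < q → ∀ i : ℕ, i ≤ J →
      ‖∑ n ∈ (Finset.Icc 1 (i * N / J)).filter (fun n : ℕ => n ≡ n₀ [MOD q]), f n‖ ≤ η * N)
    (q : ℕ) (hq1 : 1 ≤ q) (hqK : q ≤ K) (c : ℕ → ℂ) (hc : ∀ n, ‖c n‖ = 1)
    (hcq : ∀ n, c n = c (n % q)) :
    ∀ k ≤ N, ‖∑ n ∈ Icc 1 k, f n * c n‖ ≤ K * η * N + N / J + 1 := by
  have hqK' : (q : ℝ) ≤ K := by exact_mod_cast hqK
  have hN0 : (0 : ℝ) < N := by exact_mod_cast hN
  have hJ0 : (0 : ℝ) < J := by exact_mod_cast hJ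
  have hηN : 0 ≤ η * N := (norm_nonneg _).trans (hsum 1 le_rfl hK 0 one_pos 0 (Nat.zero_le _))
  have hgn : ∀ n, ‖f n * c n‖ ≤ 1 := by
    intro n
    rw [norm_mul, hc, mul_one]
    exact hf n
  -- a class
  have hclass : ∀ i ≤ J, ‖∑ n ∈ Icc 1 (i * N / J), f n * c n‖ ≤ K * η * N := by
    intro i hi
    rw [← Finset.sum_fiberwise_of_maps_to (s := Icc 1 (i * N / J)) (t := range q)
      (g := fun n => n % q) (fun n _ => Finset.mem_range.2 (Nat.mod_lt _ hq1))]
    calc _ ≤ ∑ n₀ ∈ range q, ‖∑ n ∈ Icc 1 (i * N / J) with n % q = n₀, f n * c n‖ :=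
          norm_sum_le _ _
      _ ≤ ∑ _n₀ ∈ range q, η * N := by
          refine Finset.sum_le_sum fun n₀ hn₀ => ?_
          rw [Finset.mem_range] at hn₀
          have h4 : ∑ n ∈ Icc 1 (i * N / J) with n % q = n₀, f n * c n =
              (∑ n ∈ (Icc 1 (i * N / J)).filter (fun n : ℕ => n ≡ n₀ [MOD q]), f n) * c n₀ := by
            rw [Finset.sum_mul]
            refine Finset.sum_congr ?_ ?_
            · refine Finset.filter_congr fun n _ => ?_
              unfold Nat.ModEq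
              rw [Nat.mod_eq_of_lt hn₀]
            · intro n hn
              rw [Finset.mem_filter] at hn
              have h5 : n % q = n₀ := by
                have := hn.2
                unfold Nat.ModEq at this
                rwa [Nat.mod_eq_of_lt hn₀] at this
              rw [hcq n, h5]
          rw [h4, norm_mul, hc, mul_one]
          exact hsum q hq1 hqK n₀ hn₀ i hi
      _ = q * (η * N) := by simp
      _ ≤ K * (η * N) := mul_le_mul_of_nonneg_right hqK' hηN
      _ = _ := by ring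
  intro k hk
  set i := k * J / N with hi
  set G := i * N / J with hG
  have hiJ : i ≤ J := by
    rw [hi]
    exact Nat.div_le_of_le_mul (Nat.mul_le_mul_right J hk)
  have hGk : G ≤ k := by
    rw [hG]
    refine Nat.div_le_of_le_mul ?_
    calc i * N ≤ k * J := Nat.div_mul_le_self _ _
      _ = J * k := Nat.mul_comm _ _
  have h5 : k * J < N * (i + 1) := Nat.lt_mul_div_succ _ hN
  have h6 : i * N < J * (G + 1) := Nat.lt_mul_div_succ _ hJ
  have h7 : (k : ℝ) * J < J * (G + 1) + N := by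
    have h8 : ((k * J : ℕ) : ℝ) < ((N * (i + 1) : ℕ) : ℝ) := by exact_mod_cast h5
    have h9 : ((i * N : ℕ) : ℝ) < ((J * (G + 1) : ℕ) : ℝ) := by exact_mod_cast h6
    push_cast at h8 h9
    linarith
  have h8 : (k : ℝ) - G ≤ N / J + 1 := by
    have h9 : ((k : ℝ) - G - 1) * J ≤ N := by linarith
    have h10 : (k : ℝ) - G - 1 ≤ N / J := by
      rw [le_div_iff₀ hJ0]
      exact h9
    linarith
  have hsub : Icc 1 G ⊆ Icc 1 k := Finset.Icc_subset_Icc_right hGk
  rw [← Finset.sum_sdiff hsub]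
  have h11 : ‖∑ n ∈ Icc 1 k \ Icc 1 G, f n * c n‖ ≤ (k : ℝ) - G := by
    calc _ ≤ ∑ n ∈ Icc 1 k \ Icc 1 G, ‖f n * c n‖ := norm_sum_le _ _
      _ ≤ ∑ _n ∈ Icc 1 k \ Icc 1 G, (1 : ℝ) := Finset.sum_le_sum fun n _ => hgn n
      _ = (k : ℝ) - G := by
        rw [Finset.sum_const, nsmul_eq_mul, mul_one, Finset.card_sdiff_of_subset hsub,
          Nat.card_Icc, Nat.card_Icc, Nat.add_sub_cancel, Nat.add_sub_cancel, Nat.cast_sub hGk]
  calc _ ≤ _ := norm_add_le _ _
    _ ≤ ((k : ℝ) - G) + K * η * N := add_le_add h11 (hclass i hiJ)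
    _ ≤ _ := by linarith

theorem pf_M1 : P_M1 := by
  intro d f hf K J N η hK hJ hN hsum P hdeg hmaj
  unfold NonMaj at hmaj
  push Not at hmaj
  obtain ⟨q, hq1, hqK, hall⟩ := hmaj
  have hq0 : (0 : ℝ) < q := by exact_mod_cast hq1
  have hq1' : (1 : ℝ) ≤ q := by exact_mod_cast hq1
  have hN0 : (0 : ℝ) < N := by exact_mod_cast hN
  choose! a ha using hall
  set b : ℕ → ℤ := fun j => if 1 ≤ j then a j else 0 with hb
  set e : ℕ → ℝ := fun j => P.coeff j - b j / q with he
  set R : ℕ → ℝ := fun n => ∑ j ∈ range (d + 1), (b j : ℝ) / q * (n : ℝ) ^ j with hR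
  set ψ : ℕ → ℝ := fun n => ∑ j ∈ range (d + 1), e j * (n : ℝ) ^ j with hψ
  have hP : ∀ n : ℕ, P.eval (n : ℝ) = R n + ψ n := by
    intro n
    rw [Polynomial.eval_eq_sum_range' (Nat.lt_succ_of_le hdeg), hR, hψ]
    simp only
    rw [← Finset.sum_add_distrib]
    refine Finset.sum_congr rfl fun j _ => ?_
    rw [he]
    ring
  -- the rotation is periodic
  have hper : ∀ n : ℕ, ee (R n) = ee (R (n % q)) := by
    intro n
    have h1 : ∀ j : ℕ, (q : ℤ) ∣ (n : ℤ) ^ j - ((n % q : ℕ) : ℤ) ^ j := by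
      intro j
      have h2 : (n % q) ^ j ≡ n ^ j [MOD q] := (Nat.mod_modEq n q).pow j
      have h3 := (Nat.modEq_iff_dvd).1 h2
      push_cast at h3 ⊢
      exact h3
    choose m hm using h1
    have h2 : R n = R (n % q) + ((∑ j ∈ range (d + 1), b j * m j : ℤ) : ℝ) := by
      rw [hR]
      simp only
      rw [Int.cast_sum, ← Finset.sum_add_distrib]
      refine Finset.sum_congr rfl fun j _ => ?_
      have h3 : (n : ℝ) ^ j - ((n % q : ℕ) : ℝ) ^ j = (q : ℝ) * (m j : ℝ) := by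
        exact_mod_cast hm j
      have h4 : (n : ℝ) ^ j = ((n % q : ℕ) : ℝ) ^ j + (q : ℝ) * (m j : ℝ) := by linarith
      rw [h4]
      push_cast
      field_simp
    rw [h2, ee_add, ee_int, mul_one]
  -- the increments
  have hinc : ∑ n ∈ range N, |ψ (n + 1) - ψ n| ≤ d * K := by
    have h1 : ∀ n : ℕ, |ψ (n + 1) - ψ n| ≤
        ∑ j ∈ range (d + 1), |e j| * (((n + 1 : ℕ) : ℝ) ^ j - (n : ℝ) ^ j) := by
      intro n
      have h2 : ψ (n + 1) - ψ n =
          ∑ j ∈ range (d + 1), e j * (((n + 1 : ℕ) : ℝ) ^ j - (n : ℝ) ^ j) := by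
        rw [hψ]
        simp only
        rw [← Finset.sum_sub_distrib]
        refine Finset.sum_congr rfl fun j _ => ?_
        ring
      rw [h2]
      refine (Finset.abs_sum_le_sum_abs _ _).trans (Finset.sum_le_sum fun j _ => ?_)
      rw [abs_mul]
      refine mul_le_mul_of_nonneg_left (le_of_eq (abs_of_nonneg ?_)) (abs_nonneg _)
      rw [sub_nonneg]
      refine pow_le_pow_left₀ (Nat.cast_nonneg _) ?_ j
      push_cast
      linarith
    calc ∑ n ∈ range N, |ψ (n + 1) - ψ n|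
        ≤ ∑ n ∈ range N, ∑ j ∈ range (d + 1),
            |e j| * (((n + 1 : ℕ) : ℝ) ^ j - (n : ℝ) ^ j) := Finset.sum_le_sum fun n _ => h1 n
      _ = ∑ j ∈ range (d + 1), |e j| * ((N : ℝ) ^ j - ((0 : ℕ) : ℝ) ^ j) := by
          rw [Finset.sum_comm]
          refine Finset.sum_congr rfl fun j _ => ?_
          rw [← Finset.mul_sum]
          congr 1
          exact Finset.sum_range_sub (fun n : ℕ => (n : ℝ) ^ j) N
      _ ≤ ∑ j ∈ range (d + 1), (if 1 ≤ j then (K : ℝ) else 0) := by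
          refine Finset.sum_le_sum fun j hj => ?_
          rw [Finset.mem_range] at hj
          by_cases hj1 : 1 ≤ j
          · rw [if_pos hj1]
            have h2 := ha j hj1 (by omega)
            have h3 : |e j| ≤ |(q : ℝ) * P.coeff j - a j| := by
              have h4 : (q : ℝ) * e j = q * P.coeff j - a j := by
                rw [he, hb]
                simp only [if_pos hj1]
                field_simp
              rw [← h4, abs_mul, abs_of_pos hq0]
              exact le_mul_of_one_le_left (abs_nonneg _) hq1'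
            have h5 : ((0 : ℕ) : ℝ) ^ j = 0 := by
              rw [Nat.cast_zero, zero_pow (by omega)]
            rw [h5, sub_zero]
            have h6 : |e j| * (N : ℝ) ^ j ≤ |(q : ℝ) * P.coeff j - a j| * (N : ℝ) ^ j :=
              mul_le_mul_of_nonneg_right h3 (by positivity)
            rw [mul_comm] at h2
            linarith
          · rw [if_neg hj1]
            have h2 : j = 0 := by omega
            subst h2
            simp
      _ = d * K := by
          rw [Finset.sum_range_succ']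
          simp
  have hbd := part_bound f hf K J N η hK hJ hN hsum q hq1 hqK (fun n => ee (R n))
    (fun n => norm_ee _) hper
  have hT : 0 ≤ K * η * N + N / J + 1 := (norm_nonneg _).trans (hbd N le_rfl)
  have hsplit : ∑ n ∈ Icc 1 N, f n * ee (P.eval (n : ℝ)) =
      ∑ n ∈ Icc 1 N, (f n * ee (R n)) * ee (ψ n) := by
    refine Finset.sum_congr rfl fun n _ => ?_
    rw [hP n, ee_add, mul_assoc]
  rw [hsplit]
  have h1 := abel_bound_sum (fun n => f n * ee (R n)) (fun n => ee (ψ n)) N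
    (K * η * N + N / J + 1) (2 * Real.pi * (d * K)) hbd (fun n => (norm_ee _).le) (by
      calc ∑ n ∈ range N, ‖ee (ψ (n + 1)) - ee (ψ n)‖
          ≤ ∑ n ∈ range N, 2 * Real.pi * |ψ (n + 1) - ψ n| :=
            Finset.sum_le_sum fun n _ => ee_sub _ _
        _ = 2 * Real.pi * ∑ n ∈ range N, |ψ (n + 1) - ψ n| := (Finset.mul_sum _ _ _).symm
        _ ≤ 2 * Real.pi * (d * K) := mul_le_mul_of_nonneg_left hinc (by positivity))
  refine h1.trans (le_of_eq ?_)
  ring

end Pool.Agent.H13.DPD
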